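import Mathlib

/-! MP_89b943_al: a primitive axial algebra with a decomposable block. A commutative
nonassociative algebra is a vector space with a symmetric bilinear product `m`. -/

namespace Pool.Agent.Results.MP_89b943_al.DecBlock

/-- A fusion law: a set of scalars containing one, with a set-valued product. -/
structure FusionLaw (F : Type*) [Field F] where
  carrier : Set F
  one_mem : 1 ∈ carrier
  star : F → F → Set F
  star_sub : ∀ l ∈ carrier, ∀ k ∈ carrier, star l k ⊆ carrier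

variable {F A : Type*} [Field F] [AddCommGroup A] [Module F A]

/-- The sum of the eigenspaces of multiplication by `a` over a set of eigenvalues. -/
def eigSum (m : A →ₗ[F] A →ₗ[F] A) (a : A) (S : Set F) : Submodule F A :=
  ⨆ l ∈ S, Module.End.eigenspace (m a) l

/-- `a` is a primitive axis for the fusion law `L`. -/
structure IsPrimitiveAxis (m : A →ₗ[F] A →ₗ[F] A) (L : FusionLaw F) (a : A) : Prop where
  ne_zero : a ≠ 0
  idem : m a a = a
  eig_top : eigSum m a L.carrier = ⊤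
  fusion : ∀ l ∈ L.carrier, ∀ k ∈ L.carrier,
    ∀ u ∈ Module.End.eigenspace (m a) l, ∀ v ∈ Module.End.eigenspace (m a) k,
      m u v ∈ eigSum m a (L.star l k)
  primitive : Module.End.eigenspace (m a) 1 = Submodule.span F {a}

/-- `X` generates the algebra. -/
def Generates (m : A →ₗ[F] A →ₗ[F] A) (X : Set A) : Prop :=
  ∀ B : Submodule F A, X ⊆ B → (∀ u ∈ B, ∀ v ∈ B, m u v ∈ B) → B = ⊤

/-- `J` is an ideal of the algebra with underlying subspace `I`. -/
def IsIdealOf (m : A →ₗ[F] A →ₗ[F] A) (I J : Submodule F A) : Prop :=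
  J ≤ I ∧ ∀ u ∈ I, ∀ v ∈ J, m u v ∈ J

/-- The block of `a`: the smallest ideal of the algebra containing `a`. -/
def block (m : A →ₗ[F] A →ₗ[F] A) (a : A) : Submodule F A :=
  sInf {I | IsIdealOf m ⊤ I ∧ a ∈ I}

/-- The algebra with underlying subspace `I` is the sum of its proper ideals. -/
def Decomposable (m : A →ₗ[F] A →ₗ[F] A) (I : Submodule F A) : Prop :=
  sSup {J | IsIdealOf m I J ∧ J ≠ I} = I

/-- the example: basis a, v, n, x -/
def mm : (Fin 4 → ℚ) →ₗ[ℚ] (Fin 4 → ℚ) →ₗ[ℚ] (Fin 4 → ℚ) :=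
  LinearMap.mk₂ ℚ (fun u w => ![u 0 * w 0,
      2 * (u 0 * w 1 + u 1 * w 0) + (u 0 * w 3 + u 3 * w 0) + 2 * (u 3 * w 2 + u 2 * w 3),
      (u 3 * w 1 + u 1 * w 3) + (u 3 * w 2 + u 2 * w 3), u 3 * w 3])
    (by intro x y z; ext i; fin_cases i <;> simp <;> ring)
    (by intro c x y; ext i; fin_cases i <;> simp <;> ring)
    (by intro x y z; ext i; fin_cases i <;> simp <;> ring)
    (by intro c x y; ext i; fin_cases i <;> simp <;> ring)

theorem mm_apply (u w : Fin 4 → ℚ) : mm u w = ![u 0 * w 0,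
      2 * (u 0 * w 1 + u 1 * w 0) + (u 0 * w 3 + u 3 * w 0) + 2 * (u 3 * w 2 + u 2 * w 3),
      (u 3 * w 1 + u 1 * w 3) + (u 3 * w 2 + u 2 * w 3), u 3 * w 3] := rfl

theorem mm_comm (u w : Fin 4 → ℚ) : mm u w = mm w u := by
  rw [mm_apply, mm_apply]
  ext i; fin_cases i <;> simp <;> ring

/-- the fusion law with no restriction on eigenvalues 1, 0, -1, 2 -/
def LL : FusionLaw ℚ where
  carrier := {1, 0, -1, 2}
  one_mem := by simp
  star := fun _ _ => {1, 0, -1, 2}
  star_sub := fun _ _ _ _ => le_refl _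

def ea : Fin 4 → ℚ := ![1, 0, 0, 0]
def ex : Fin 4 → ℚ := ![0, 0, 0, 1]

theorem mem_eigSum {u : Fin 4 → ℚ} {a : Fin 4 → ℚ} (l : ℚ) (hl : l ∈ LL.carrier)
    (h : mm a u = l • u) : u ∈ eigSum mm a LL.carrier :=
  Submodule.mem_iSup_of_mem l (Submodule.mem_iSup_of_mem hl
    (Module.End.mem_eigenspace_iff.2 h))

theorem top_a : eigSum mm ea LL.carrier = ⊤ := by
  rw [eq_top_iff]
  intro u _
  have h : u = ![u 0, 0, 0, 0] + ![0, u 1 + u 3 / 2, 0, 0] + ![0, - (u 3 / 2), u 2, u 3] := by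
    ext i; fin_cases i <;> simp
  rw [h]
  refine Submodule.add_mem _ (Submodule.add_mem _ ?_ ?_) ?_
  · refine mem_eigSum 1 (by simp [LL]) ?_
    rw [mm_apply]; ext i; fin_cases i <;> simp [ea]
  · refine mem_eigSum 2 (by simp [LL]) ?_
    rw [mm_apply]; ext i; fin_cases i <;> simp [ea]
  · refine mem_eigSum 0 (by simp [LL]) ?_
    rw [mm_apply]; ext i; fin_cases i <;> simp [ea]
    ring

theorem top_x : eigSum mm ex LL.carrier = ⊤ := by
  rw [eq_top_iff]
  intro u _
  -- u = u3 x + c0 (-2a - v + n) + c1 (-2v + n) + c2 (v + n)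
  have h : u = ![0, 0, 0, u 3] + ![u 0, u 0 / 2, - (u 0 / 2), 0]
      + ![0, 2 * (u 1 - u 0 / 2 - (u 2 + u 0 / 2)) / 3, - (u 1 - u 0 / 2 - (u 2 + u 0 / 2)) / 3, 0]
      + ![0, (u 1 - u 0 / 2 + 2 * (u 2 + u 0 / 2)) / 3,
          (u 1 - u 0 / 2 + 2 * (u 2 + u 0 / 2)) / 3, 0] := by
    ext i; fin_cases i <;> simp <;> ring
  rw [h]
  refine Submodule.add_mem _ (Submodule.add_mem _ (Submodule.add_mem _ ?_ ?_) ?_) ?_
  · refine mem_eigSum 1 (by simp [LL]) ?_
    rw [mm_apply]; ext i; fin_cases i <;> simp [ex]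
  · refine mem_eigSum 0 (by simp [LL]) ?_
    rw [mm_apply]; ext i; fin_cases i <;> simp [ex]
    ring
  · refine mem_eigSum (-1) (by simp [LL]) ?_
    rw [mm_apply]; ext i; fin_cases i <;> simp [ex] <;> ring
  · refine mem_eigSum 2 (by simp [LL]) ?_
    rw [mm_apply]; ext i; fin_cases i <;> simp [ex] <;> ring

theorem axis_a : IsPrimitiveAxis mm LL ea where
  ne_zero := fun h => by simpa [ea] using congrFun h 0
  idem := by rw [mm_apply]; ext i; fin_cases i <;> simp [ea]
  eig_top := top_a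
  fusion := fun l _ k _ _ _ _ _ => by
    have : eigSum mm ea (LL.star l k) = ⊤ := top_a
    rw [this]; trivial
  primitive := by
    ext u
    rw [Module.End.mem_eigenspace_iff, Submodule.mem_span_singleton, mm_apply]
    constructor
    · intro h
      have h1 := congrFun h 1
      have h2 := congrFun h 2
      have h3 := congrFun h 3
      simp [ea] at h1 h2 h3
      refine ⟨u 0, ?_⟩
      have e2 : u 2 = 0 := h2.symm
      have e3 : u 3 = 0 := h3.symm
      have e1 : u 1 = 0 := by linarith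
      ext i; fin_cases i <;> simp [ea, e1, e2, e3]
    · rintro ⟨c, rfl⟩
      ext i; fin_cases i <;> simp [ea]

theorem axis_x : IsPrimitiveAxis mm LL ex where
  ne_zero := fun h => by simpa [ex] using congrFun h 3
  idem := by rw [mm_apply]; ext i; fin_cases i <;> simp [ex]
  eig_top := top_x
  fusion := fun l _ k _ _ _ _ _ => by
    have : eigSum mm ex (LL.star l k) = ⊤ := top_x
    rw [this]; trivial
  primitive := by
    ext u
    rw [Module.End.mem_eigenspace_iff, Submodule.mem_span_singleton, mm_apply]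
    constructor
    · intro h
      have h0 := congrFun h 0
      have h1 := congrFun h 1
      have h2 := congrFun h 2
      simp [ex] at h0 h1 h2
      refine ⟨u 3, ?_⟩
      have e0 : u 0 = 0 := h0.symm
      have e1 : u 1 = 0 := by linarith
      have e2 : u 2 = 0 := by linarith
      ext i; fin_cases i <;> simp [ex, e0, e1, e2]
    · rintro ⟨c, rfl⟩
      ext i; fin_cases i <;> simp [ex]

/-- basis vectors v and n -/
def ev : Fin 4 → ℚ := ![0, 1, 0, 0]
def en : Fin 4 → ℚ := ![0, 0, 1, 0]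

theorem xa : mm ex ea = ev := by
  rw [mm_apply]; ext i; fin_cases i <;> simp [ex, ea, ev]

theorem xv : mm ex ev = en := by
  rw [mm_apply]; ext i; fin_cases i <;> simp [ex, en, ev]

theorem decomp (u : Fin 4 → ℚ) : u = u 0 • ea + u 1 • ev + u 2 • en + u 3 • ex := by
  ext i; fin_cases i <;> simp [ex, ea, ev, en]

theorem gen : Generates mm {ea, ex} := by
  intro B hX hB
  have ha : ea ∈ B := hX (by simp)
  have hx : ex ∈ B := hX (by simp)
  have hv : ev ∈ B := xa ▸ hB _ hx _ ha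
  have hn : en ∈ B := xv ▸ hB _ hx _ hv
  rw [eq_top_iff]
  intro u _
  rw [decomp u]
  exact B.add_mem (B.add_mem (B.add_mem (B.smul_mem _ ha) (B.smul_mem _ hv))
    (B.smul_mem _ hn)) (B.smul_mem _ hx)

/-- the block of a -/
def Ia : Submodule ℚ (Fin 4 → ℚ) where
  carrier := {u | u 3 = 0}
  add_mem' := by
    intro a b ha hb
    simp only [Set.mem_ofPred_eq, Pi.add_apply] at *
    rw [ha, hb, add_zero]
  zero_mem' := rfl
  smul_mem' := by
    intro c a ha
    simp only [Set.mem_ofPred_eq, Pi.smul_apply] at *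
    rw [ha, smul_zero]

theorem mem_Ia (u : Fin 4 → ℚ) : u ∈ Ia ↔ u 3 = 0 := Iff.rfl

theorem block_eq : block mm ea = Ia := by
  apply le_antisymm
  · refine sInf_le ⟨⟨le_top, fun u _ v hv => ?_⟩, ?_⟩
    · rw [mem_Ia] at *
      rw [mm_apply]; simp [hv]
    · simp [mem_Ia, ea]
  · refine le_sInf ?_
    rintro J ⟨⟨-, hJ⟩, ha⟩ u hu
    rw [mem_Ia] at hu
    have hv : ev ∈ J := xa ▸ hJ ex trivial _ ha
    have hn : en ∈ J := xv ▸ hJ ex trivial _ hv
    rw [decomp u, hu, zero_smul, add_zero]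
    exact J.add_mem (J.add_mem (J.smul_mem _ ha) (J.smul_mem _ hv)) (J.smul_mem _ hn)

/-- the two proper ideals of the block -/
def J1 : Submodule ℚ (Fin 4 → ℚ) where
  carrier := {u | u 3 = 0 ∧ u 2 = 0}
  add_mem' := by
    intro a b ha hb
    simp only [Set.mem_ofPred_eq, Pi.add_apply] at *
    rw [ha.1, hb.1, ha.2, hb.2]; simp
  zero_mem' := ⟨rfl, rfl⟩
  smul_mem' := by
    intro c a ha
    simp only [Set.mem_ofPred_eq, Pi.smul_apply] at *
    rw [ha.1, ha.2]; simp

def J2 : Submodule ℚ (Fin 4 → ℚ) where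
  carrier := {u | u 3 = 0 ∧ u 0 = 0 ∧ u 1 = 0}
  add_mem' := by
    intro a b ha hb
    simp only [Set.mem_ofPred_eq, Pi.add_apply] at *
    rw [ha.1, hb.1, ha.2.1, hb.2.1, ha.2.2, hb.2.2]; simp
  zero_mem' := ⟨rfl, rfl, rfl⟩
  smul_mem' := by
    intro c a ha
    simp only [Set.mem_ofPred_eq, Pi.smul_apply] at *
    rw [ha.1, ha.2.1, ha.2.2]; simp

theorem mem_J1 (u : Fin 4 → ℚ) : u ∈ J1 ↔ u 3 = 0 ∧ u 2 = 0 := Iff.rfl
theorem mem_J2 (u : Fin 4 → ℚ) : u ∈ J2 ↔ u 3 = 0 ∧ u 0 = 0 ∧ u 1 = 0 := Iff.rfl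

theorem dec : Decomposable mm (block mm ea) := by
  rw [block_eq]
  apply le_antisymm
  · exact sSup_le fun J hJ => hJ.1.1
  · have h1 : J1 ∈ {J | IsIdealOf mm Ia J ∧ J ≠ Ia} := by
      refine ⟨⟨fun u hu => hu.1, fun u hu v hv => ?_⟩, fun h => ?_⟩
      · rw [mem_Ia] at hu
        rw [mem_J1] at *
        rw [mm_apply]; simp [hu, hv.1, hv.2]
      · have : en ∈ J1 := by rw [h, mem_Ia]; simp [en]
        rw [mem_J1] at this
        simp [en] at this
    have h2 : J2 ∈ {J | IsIdealOf mm Ia J ∧ J ≠ Ia} := by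
      refine ⟨⟨fun u hu => hu.1, fun u hu v hv => ?_⟩, fun h => ?_⟩
      · rw [mem_Ia] at hu
        rw [mem_J2] at *
        rw [mm_apply]; simp [hu, hv.1, hv.2.1, hv.2.2]
      · have : ea ∈ J2 := by rw [h, mem_Ia]; simp [ea]
        rw [mem_J2] at this
        simp [ea] at this
    intro u hu
    rw [mem_Ia] at hu
    have h3 : u = ![u 0, u 1, 0, 0] + ![0, 0, u 2, 0] := by
      ext i; fin_cases i <;> simp [hu]
    rw [h3]
    refine Submodule.add_mem _ (le_sSup h1 ?_) (le_sSup h2 ?_)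
    · rw [mem_J1]; simp
    · rw [mem_J2]; simp

/-- There are a primitive axial algebra over the rationals and an axis whose block is the sum
of its proper ideals. -/
theorem result : ∃ (A : Type) (_ : AddCommGroup A) (_ : Module ℚ A)
    (m : A →ₗ[ℚ] A →ₗ[ℚ] A) (L : FusionLaw ℚ) (X : Set A) (a : A),
    (∀ u v, m u v = m v u) ∧ (∀ x ∈ X, IsPrimitiveAxis m L x) ∧ Generates m X ∧ a ∈ X ∧
      Decomposable m (block m a) := by
  refine ⟨Fin 4 → ℚ, inferInstance, inferInstance, mm, LL, {ea, ex}, ea, mm_comm, ?_, gen,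
    by simp, dec⟩
  intro x hx
  rcases hx with rfl | hx
  · exact axis_a
  · rw [Set.mem_singleton_iff] at hx
    rw [hx]
    exact axis_x

end Pool.Agent.Results.MP_89b943_al.DecBlock
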